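import Pool.Agent.Helper656.Her.Normal

open Polynomial

/-- Herstein's conjecture on radical normal subgroups holds for a normal subgroup `N` of `D*`
(centre of `D` denoted `Z`) in which every element `u` has a positive power `u ^ n` in `Z` such that
every prime `p` dividing `n` either is the characteristic of `D` or has the property that the `p`-th
cyclotomic polynomial has a factor of degree 1, 2 or 3 over `Z`. -/
theorem Pool.Agent.Results.MP_176fb9_al.CyclotomicDegreeThree.result.{u}
    (D : Type u) [DivisionRing D] (N : Subgroup Dˣ) (hN : N.Normal)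
    (H : ∀ u ∈ N, ∃ n : ℕ, 0 < n ∧ (u : D) ^ n ∈ Subring.center D ∧
        ∀ p : ℕ, p.Prime → p ∣ n → (p : D) = 0 ∨
          ∃ g : (Subring.center D)[X], 1 ≤ g.natDegree ∧ g.natDegree ≤ 3 ∧
            g ∣ cyclotomic p (Subring.center D)) :
    ∀ u ∈ N, (u : D) ∈ Subring.center D :=
  Pool.Agent.Helper656.Her.mainN D N hN H
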